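import Pool.Agent.helper80.SG.Spec2

/-!
Project sq, module ZRM: if `ccM Φ o a = 0` then nothing is visible on a kernel of minimal dimension.
-/

set_option autoImplicit false

namespace Pool.Agent.SG

open MvPolynomial Module Pool.Agent.SV

theorem ZRM : ZRM_stmt := by
  intro τ E P J _ _ _ _ _ _ _ _ Φ o V hV a x hcc hdim f hf hVf
  obtain ⟨p, hp⟩ := hV f hVf
  set x' : τ → ℕ → P := Function.update x o (Function.update (x o) (a o) p) with hx'
  have hx1 : ∀ t, t ≠ o → x' t = x t := by
    intro t ht
    rw [hx']
    exact Function.update_of_ne ht _ _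
  have hx2 : x' o (a o) = p := by
    rw [hx', Function.update_self, Function.update_self]
  have hx3 : ∀ i, i ≠ a o → x' o i = x o i := by
    intro i hi
    rw [hx', Function.update_self, Function.update_of_ne hi]
  have hle : KerS Φ (fun t => Finset.range ((a + Pi.single o 1 : τ → ℕ) t)) x' ≤
      KerS Φ (fun t => Finset.range (a t)) x := by
    intro v hv
    rw [mem_KerS] at hv ⊢
    intro t i hi
    have hi' : i < a t := Finset.mem_range.1 hi
    have h1 := hv t i (by
      rw [Finset.mem_range, Pi.add_apply]
      omega)
    by_cases ht : t = o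
    · subst ht
      rw [hx3 i (by omega)] at h1
      exact h1
    · rw [hx1 t ht] at h1
      exact h1
  have hne : KerS Φ (fun t => Finset.range ((a + Pi.single o 1 : τ → ℕ) t)) x' ≠
      KerS Φ (fun t => Finset.range (a t)) x := by
    intro h
    rw [← h, mem_KerS] at hf
    have h1 := hf o (a o) (by
      rw [Finset.mem_range, Pi.add_apply, Pi.single_eq_same]
      omega)
    rw [hx2] at h1
    exact hp h1
  have hlt := Submodule.finrank_lt_finrank_of_lt (lt_of_le_of_ne hle hne)
  have h1 := dmM_le Φ (a + Pi.single o 1) x'
  unfold ccM at hcc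
  omega

end Pool.Agent.SG
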